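import Pool.Agent.Y16.ST.Dim
import Pool.Agent.Y16.ST.Iid

/-!
# Sturmian spectral dimensions at all couplings: all typical measures on the frequencies

For every coupling constant the Hausdorff dimension and the upper box-counting dimension of the
spectrum of the Sturmian Hamiltonian are almost everywhere constant with respect to every
typical measure: Lebesgue measure, all ergodic measures of the Gauss map with integrable logarithm
of the first digit for which sets of positive measure have preimages with large first digit, and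
all laws with independent and identically distributed unbounded digits.

The proof uses the starting library of helpers 811, 965, 338 and their teams.
-/

set_option autoImplicit false

open MeasureTheory

namespace Pool.Agent.Results.MP_0b97f5_mp.TypicalMeasures

open Pool.Agent.Helper434.PSCplx (L2)

/-- the smallest number of closed intervals of length `2ε` which cover `K` -/
noncomputable def cov (K : Set ℝ) (ε : ℝ) : ℕ :=
  sInf {N : ℕ | ∃ t : Finset ℝ, t.card = N ∧ K ⊆ ⋃ x ∈ t, Set.Icc (x - ε) (x + ε)}

/-- the upper box-counting dimension -/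
noncomputable def upperBox (K : Set ℝ) : EReal :=
  Filter.limsup (fun ε : ℝ => ((Real.log (cov K ε) / Real.log (1 / ε) : ℝ) : EReal))
    (nhdsWithin 0 (Set.Ioi 0))

section general

variable {X : Type} [NormedAddCommGroup X] [NormedSpace ℂ X]

/-- the spectrum of a bounded operator, as a set of real numbers -/
def spec (T : X →L[ℂ] X) : Set ℝ := {E : ℝ | (E : ℂ) ∈ spectrum ℂ T}

/-- the spectrum has Hausdorff dimension `cH` and upper box-counting dimension `cB` -/
def HasDims (T : X →L[ℂ] X) (cH cB : ℝ) : Prop :=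
  dimH (spec T) = ENNReal.ofReal cH ∧ upperBox (spec T) = (cB : EReal)

end general

/-- the value of a vector of `ℓ²(ℤ)` at a site; here `L2` is `lp (fun _ : ℤ => ℂ) 2` -/
noncomputable def amp (u : L2) (n : ℤ) : ℂ := u n

/-- the characteristic function of `[1 - α, 1)` at `n α + ω mod 1` -/
noncomputable def chi (α ω : ℝ) (n : ℤ) : ℝ :=
  if 1 - α ≤ Int.fract ((n : ℝ) * α + ω) then 1 else 0

/-- `T` is the Sturmian Hamiltonian with coupling `lam`, frequency `α` and phase `ω` -/
def IsSturmian (lam α ω : ℝ) (T : L2 →L[ℂ] L2) : Prop :=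
  ∀ (u : L2) (n : ℤ), amp (T u) n =
    amp u (n + 1) + amp u (n - 1) + ((lam * chi α ω n : ℝ) : ℂ) * amp u n

/-- the Gauss map `x ↦ {1 / x}` -/
noncomputable def gaussMap (x : ℝ) : ℝ := Int.fract x⁻¹

/-- the continued fraction digits: `α = [a_1, a_2, ...]` with `a_{k+1} = digit α k` -/
noncomputable def digit (α : ℝ) (k : ℕ) : ℕ := ⌊(gaussMap^[k] α)⁻¹⌋₊

/-- the frequencies: irrational numbers in `(0, 1)` -/
def IsFreq (α : ℝ) : Prop := Irrational α ∧ α ∈ Set.Ioo (0:ℝ) 1

/-- the digits grow subexponentially: `log a_k ≤ δ k` for all large `k`, for every `δ > 0` -/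
def Subexp (α : ℝ) : Prop :=
  ∀ δ : ℝ, 0 < δ → ∀ᶠ k : ℕ in Filter.atTop, (digit α k : ℝ) ≤ Real.exp (δ * k)

/-- sets of positive measure have preimages of positive measure in `{a_1 ≥ A}`, for every `A` -/
def LargeDigits (μ : Measure ℝ) : Prop := ∀ (A : ℕ) (E : Set ℝ), MeasurableSet E → μ E ≠ 0 →
  μ {x | A ≤ digit x 0 ∧ gaussMap x ∈ E} ≠ 0

/-- typical measures: carried by the frequencies with subexponentially growing digits, almost every
orbit of the Gauss map visits every Borel set of positive measure, and `LargeDigits` -/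
structure IsTypical (μ : Measure ℝ) : Prop where
  freq : ∀ᵐ α ∂μ, IsFreq α
  visit : ∀ E : Set ℝ, MeasurableSet E → μ E ≠ 0 → ∀ᵐ α ∂μ, ∃ n, gaussMap^[n] α ∈ E
  large : LargeDigits μ
  growth : ∀ᵐ α ∂μ, Subexp α

/-- `μ` is an ergodic probability measure of the Gauss map on the frequencies, with `LargeDigits`
and integrable `log a_1` -/
structure IsErgodicLarge (μ : Measure ℝ) : Prop where
  prob : IsProbabilityMeasure μ
  ergodic : Ergodic gaussMap μ
  freq : ∀ᵐ α ∂μ, IsFreq α
  large : LargeDigits μ
  log : Integrable (fun α => Real.log (digit α 0)) μ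

/-- `μ` is a probability measure on the frequencies for which the digits are independent and
identically distributed, unbounded, with integrable logarithm -/
structure IsIidDigits (μ : Measure ℝ) : Prop where
  prob : IsProbabilityMeasure μ
  freq : ∀ᵐ α ∂μ, IsFreq α
  indep : ProbabilityTheory.iIndepFun (fun (k : ℕ) (α : ℝ) => digit α k) μ
  ident : ∀ k, μ.map (fun α => digit α k) = μ.map (fun α => digit α 0)
  unbdd : ∀ A : ℕ, μ {α | A ≤ digit α 0} ≠ 0
  log : Integrable (fun α => Real.log (digit α 0)) μ

lemma isSturmian_iff {lam α ω : ℝ} {T : L2 →L[ℂ] L2} : IsSturmian lam α ω T ↔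
    Pool.Agent.H695R3.ST.IsSchr (Pool.Agent.H695R3.ST.pot lam α ω) T := by
  have key : ∀ n : ℤ, lam * chi α ω n = Pool.Agent.H695R3.ST.pot lam α ω n := by
    intro n
    unfold chi Pool.Agent.H695R3.ST.pot
    rw [add_comm ((n : ℝ) * α) ω]
    split_ifs <;> simp
  constructor
  · intro h u n
    have := h u n
    rw [key n] at this
    exact this
  · intro h u n
    have := h u n
    rw [← key n] at this
    exact this

lemma typ {μ : Measure ℝ} (h : IsTypical μ) : Pool.Agent.Y16.ST.Typical μ :=
  ⟨h.freq, h.visit, h.large, h.growth⟩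

lemma typ' {μ : Measure ℝ} (h : Pool.Agent.Y16.ST.Typical μ) : IsTypical μ :=
  ⟨h.base, h.visit, h.large, h.growth⟩

lemma typ_all {μ : Measure ℝ} (h : μ = volume.restrict (Set.Ioo (0:ℝ) 1) ∨ IsErgodicLarge μ ∨
    IsIidDigits μ ∨ IsTypical μ) : Pool.Agent.Y16.ST.Typical μ := by
  rcases h with h | h | h | h
  · rw [h]
    exact Pool.Agent.Y16.ST.typical_volume
  · have := h.prob
    exact Pool.Agent.Y16.ST.typical_of_ergodic h.ergodic h.freq h.log h.large
  · have := h.prob
    exact Pool.Agent.Y16.ST.typical_of_iid h.freq h.indep h.ident h.unbdd h.log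
  · exact typ h

/-- **Main theorem.** For every coupling `lam > 0` and every measure `μ` which is Lebesgue measure
on `(0,1)`, or an ergodic probability measure of the Gauss map on the frequencies with `LargeDigits`
and integrable `log a_1`, or a law with independent and identically distributed unbounded digits
with integrable logarithm, or more generally a typical measure, there are `cH, cB ∈ [0,1]` such that
for `μ`-almost every frequency and every phase the Sturmian Hamiltonian is a bounded self-adjoint
operator whose spectrum has Hausdorff dimension `cH` and upper box-counting dimension `cB`. -/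
theorem result : ∀ lam : ℝ, 0 < lam → ∀ μ : Measure ℝ,
    (μ = volume.restrict (Set.Ioo (0:ℝ) 1) ∨ IsErgodicLarge μ ∨ IsIidDigits μ ∨ IsTypical μ) →
    ∃ cH cB : ℝ, 0 ≤ cH ∧ cH ≤ 1 ∧ 0 ≤ cB ∧ cB ≤ 1 ∧ ∀ᵐ α ∂μ, ∀ ω : ℝ,
      (∃ T, IsSturmian lam α ω T ∧ IsSelfAdjoint T) ∧
      ∀ T, IsSturmian lam α ω T → HasDims T cH cB := by
  intro lam hlam μ h0
  have hμ := typ_all h0
  obtain ⟨cH, cB, a1, a2, a3, a4, h⟩ := Pool.Agent.Y16.ST.constReal hlam hμ
  refine ⟨cH, cB, a1, a2, a3, a4, ?_⟩
  filter_upwards [h, hμ.base, hμ.freq3] with α k1 k2 k3 ω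
  obtain ⟨T, hT, hs⟩ := Pool.Agent.H695R3.ST.exists_schr
    (Pool.Agent.H695R3.ST.pot_bound hlam.le α ω)
  refine ⟨⟨T, isSturmian_iff.2 hT, hs⟩, fun T' hT' => ?_⟩
  have e := Pool.Agent.Y16.ST.spec_eq hlam k2.1 k2.2 k3 ω T' (isSturmian_iff.1 hT')
  unfold HasDims spec
  rw [e]
  exact k1

end Pool.Agent.Results.MP_0b97f5_mp.TypicalMeasures
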